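import Mathlib

/-!
# Nonnegative real part of `P_{α,β}` on the unit disk

We prove the full statement asked in Q1: if `0 < α < 2/3`, `0 < β` and `0 ≤ α - 2 (1-α) β`, then
`0 ≤ Re P_{α,β}(z)` for every `z` in the open unit disk.
-/

namespace Pool.Agent.Results.MP_54ed65_an.NonnegRealPart

open Complex

/-- `p_β(z) = ((1+z)/(1-z))^β` with the principal power. -/
noncomputable def pBeta (β : ℝ) (z : ℂ) : ℂ := ((1 + z) / (1 - z)) ^ (β : ℂ)

/-- `P_{α,β}(z) = {α r² + (1-α)(1-r²)} p_β(z) + (1-α)(1-r²) z p_β'(z)`, with `r = |z|`. -/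
noncomputable def bigP (α β : ℝ) (z : ℂ) : ℂ :=
  ((α * ‖z‖ ^ 2 + (1 - α) * (1 - ‖z‖ ^ 2) : ℝ) : ℂ) * pBeta β z
    + (((1 - α) * (1 - ‖z‖ ^ 2) : ℝ) : ℂ) * (z * deriv (pBeta β) z)

/-- The base `(1+z)/(1-z)` lies in the right half-plane. -/
lemma base_re_pos {z : ℂ} (hz : ‖z‖ < 1) : 0 < ((1 + z) / (1 - z)).re := by
  have hne : (1 - z) ≠ 0 := by
    intro h
    have : z = 1 := by linear_combination -h
    rw [this] at hz; simp at hz
  have hN : 0 < normSq (1 - z) := normSq_pos.mpr hne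
  have hz2 : z.re ^ 2 + z.im ^ 2 < 1 := by
    have h1 : ‖z‖ ^ 2 < 1 := by
      have := norm_nonneg z
      nlinarith
    have h2 : ‖z‖ ^ 2 = z.re ^ 2 + z.im ^ 2 := by
      rw [← normSq_eq_norm_sq, normSq_apply]; ring
    linarith
  rw [div_re]
  have : (1 + z).re * (1 - z).re / normSq (1 - z) + (1 + z).im * (1 - z).im / normSq (1 - z)
      = (1 - (z.re ^ 2 + z.im ^ 2)) / normSq (1 - z) := by
    simp; ring
  rw [this]
  exact div_pos (by linarith) hN

/-- The derivative of `p_β`. -/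
lemma deriv_pBeta (β : ℝ) {z : ℂ} (hz : ‖z‖ < 1) :
    deriv (pBeta β) z = (2 * β / (1 - z ^ 2)) * pBeta β z := by
  have hne : (1 - z) ≠ 0 := by
    intro h
    have : z = 1 := by linear_combination -h
    rw [this] at hz; simp at hz
  have hne' : (1 + z) ≠ 0 := by
    intro h
    have : z = -1 := by linear_combination h
    rw [this] at hz; simp at hz
  have hpos := base_re_pos hz
  have hslit : (1 + z) / (1 - z) ∈ slitPlane := Or.inl hpos
  have hw : HasDerivAt (fun y : ℂ => (1 + y) / (1 - y)) (2 / (1 - z) ^ 2) z := by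
    have h1 : HasDerivAt (fun y : ℂ => 1 + y) 1 z := by
      simpa using (hasDerivAt_id z).const_add (1 : ℂ)
    have h2 : HasDerivAt (fun y : ℂ => 1 - y) (-1) z := by
      simpa using (hasDerivAt_id z).const_sub (1 : ℂ)
    have h3 := h1.div h2 hne
    have e : (2 : ℂ) / (1 - z) ^ 2 = (1 * (1 - z) - (1 + z) * -1) / (1 - z) ^ 2 := by
      congr 1
      ring
    rw [e]
    exact h3
  have h4 := hw.cpow_const (c := (β : ℂ)) hslit
  have h5 : deriv (pBeta β) z =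
      (β : ℂ) * ((1 + z) / (1 - z)) ^ ((β : ℂ) - 1) * (2 / (1 - z) ^ 2) := h4.deriv
  rw [h5]
  have hbase : (1 + z) / (1 - z) ≠ 0 := div_ne_zero hne' hne
  rw [cpow_sub _ _ hbase, cpow_one]
  have hne2 : (1 - z ^ 2) ≠ 0 := by
    have : (1 - z ^ 2) = (1 - z) * (1 + z) := by ring
    rw [this]; exact mul_ne_zero hne hne'
  unfold pBeta
  field_simp
  ring

/-- The real inequality behind the theorem. -/
lemma core_ineq {α β ρ φ : ℝ} (hα : 0 < α) (hα' : α < 2 / 3) (hβ : 0 < β)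
    (h : 0 ≤ α - 2 * (1 - α) * β) (hρ : 0 < ρ) (hφ : |φ| < Real.pi / 2) :
    0 ≤ Real.cos (β * φ) * (α * (ρ ^ 2 - 2 * ρ * Real.cos φ + 1) + 4 * (1 - α) * (ρ * Real.cos φ)
          + 2 * (1 - α) * β * (ρ ^ 2 - 1) * Real.cos φ ^ 2)
        - 2 * (1 - α) * β * Real.cos φ * Real.sin φ * Real.sin (β * φ) * (ρ ^ 2 + 1) := by
  have hpi := Real.pi_pos
  have hφ1 := (abs_lt.mp hφ).1
  have hφ2 := (abs_lt.mp hφ).2
  have hβ1 : β < 1 := by nlinarith
  have hc : 0 < Real.cos φ := Real.cos_pos_of_mem_Ioo ⟨by linarith, by linarith⟩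
  have hβφ1 : -(Real.pi / 2) < β * φ := by nlinarith
  have hβφ2 : β * φ < Real.pi / 2 := by nlinarith
  have hcβ : 0 < Real.cos (β * φ) := Real.cos_pos_of_mem_Ioo ⟨by linarith, by linarith⟩
  have hs2 : Real.sin φ ^ 2 = 1 - Real.cos φ ^ 2 := by
    have := Real.sin_sq_add_cos_sq φ; linarith
  have hcle : Real.cos φ ≤ 1 := Real.cos_le_one φ
  -- the key sign: `sin φ * sin ((1-β) φ) ≥ 0`
  have hkey : 0 ≤ Real.sin φ * (Real.sin φ * Real.cos (β * φ) - Real.cos φ * Real.sin (β * φ)) := by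
    rw [← Real.sin_sub]
    have e : φ - β * φ = (1 - β) * φ := by ring
    rw [e]
    rcases le_total 0 φ with h0 | h0
    · exact mul_nonneg (Real.sin_nonneg_of_nonneg_of_le_pi h0 (by linarith))
        (Real.sin_nonneg_of_nonneg_of_le_pi (by nlinarith) (by nlinarith))
    · exact mul_nonneg_of_nonpos_of_nonpos
        (Real.sin_nonpos_of_nonpos_of_neg_pi_le h0 (by linarith))
        (Real.sin_nonpos_of_nonpos_of_neg_pi_le (by nlinarith) (by nlinarith))
  have hQ : 0 ≤ ρ ^ 2 - 2 * ρ * Real.cos φ + 1 := by nlinarith [sq_nonneg (ρ - 1)]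
  set c := Real.cos φ with hcdef
  set s := Real.sin φ with hsdef
  set C := Real.cos (β * φ) with hCdef
  set S := Real.sin (β * φ) with hSdef
  have h1α : 0 < 1 - α := by linarith
  -- reduce to the extremal value of `β`
  have step1 : 0 ≤ C * ((α - 2 * (1 - α) * β) * (ρ ^ 2 - 2 * ρ * c + 1)) :=
    mul_nonneg hcβ.le (mul_nonneg h hQ)
  -- the remaining expression
  have step2 : 0 ≤ 2 * ρ * c * (1 - β) * C + β * ρ ^ 2 * (2 * c ^ 2 * C + s * (s * C - c * S))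
      + β * (s * (s * C - c * S)) := by
    have t1 : 0 ≤ 2 * ρ * c * (1 - β) * C :=
      mul_nonneg (mul_nonneg (by positivity) (by linarith)) hcβ.le
    have t2 : 0 ≤ β * ρ ^ 2 * (2 * c ^ 2 * C + s * (s * C - c * S)) :=
      mul_nonneg (by positivity) (add_nonneg (by positivity) hkey)
    have t3 : 0 ≤ β * (s * (s * C - c * S)) := mul_nonneg hβ.le hkey
    linarith
  have key : C * (α * (ρ ^ 2 - 2 * ρ * c + 1) + 4 * (1 - α) * (ρ * c)
          + 2 * (1 - α) * β * (ρ ^ 2 - 1) * c ^ 2)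
        - 2 * (1 - α) * β * c * s * S * (ρ ^ 2 + 1)
      = C * ((α - 2 * (1 - α) * β) * (ρ ^ 2 - 2 * ρ * c + 1))
        + 2 * (1 - α) * (2 * ρ * c * (1 - β) * C
          + β * ρ ^ 2 * (2 * c ^ 2 * C + s * (s * C - c * S)) + β * (s * (s * C - c * S))) := by
    have : s * (s * C - c * S) = (1 - c ^ 2) * C - c * s * S := by
      rw [← hs2]; ring
    rw [this]; ring
  rw [key]
  have := mul_nonneg (by linarith : (0 : ℝ) ≤ 2 * (1 - α)) step2
  linarith

/-- **Affirmative answer to Q1.** For every `α ∈ (0, 2/3)` and every `β > 0` with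
`α - 2 (1-α) β ≥ 0`, the real part of `P_{α,β}` is nonnegative on the whole open unit disk. -/
theorem result (α β : ℝ) (hα : 0 < α) (hα' : α < 2 / 3) (hβ : 0 < β)
    (h : 0 ≤ α - 2 * (1 - α) * β) (z : ℂ) (hz : ‖z‖ < 1) :
    0 ≤ (bigP α β z).re := by
  have hne : (1 - z) ≠ 0 := by
    intro h
    have : z = 1 := by linear_combination -h
    rw [this] at hz; simp at hz
  have hne' : (1 + z) ≠ 0 := by
    intro h
    have : z = -1 := by linear_combination h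
    rw [this] at hz; simp at hz
  obtain ⟨w, hw⟩ : ∃ w, w = (1 + z) / (1 - z) := ⟨_, rfl⟩
  have hwre : 0 < w.re := hw ▸ base_re_pos hz
  have hw0 : w ≠ 0 := by
    intro h0; rw [h0] at hwre; simp at hwre
  have hw1 : w + 1 ≠ 0 := by
    intro h0
    have : (w + 1).re = 0 := by rw [h0]; simp
    simp at this; linarith
  have hzw : z = (w - 1) / (w + 1) := by
    rw [hw]; field_simp; ring
  -- polar form of `w`
  obtain ⟨ρ, hρdef⟩ : ∃ ρ : ℝ, ρ = ‖w‖ := ⟨_, rfl⟩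
  obtain ⟨φ, hφdef⟩ : ∃ φ : ℝ, φ = arg w := ⟨_, rfl⟩
  have hρ : 0 < ρ := by rw [hρdef]; exact norm_pos_iff.mpr hw0
  have hφ : |φ| < Real.pi / 2 := by rw [hφdef]; exact abs_arg_lt_pi_div_two_iff.mpr (Or.inl hwre)
  have hwpol : w = ρ * (Real.cos φ + Real.sin φ * I) := by
    rw [hρdef, hφdef]
    have := norm_mul_cos_add_sin_mul_I w
    push_cast
    exact this.symm
  have hcs : Real.cos φ ^ 2 + Real.sin φ ^ 2 = 1 := Real.cos_sq_add_sin_sq φ
  have hwre' : w.re = ρ * Real.cos φ := by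
    rw [hwpol]; simp [-ofReal_cos, -ofReal_sin]
  have hwim' : w.im = ρ * Real.sin φ := by
    rw [hwpol]; simp [-ofReal_cos, -ofReal_sin]
  have hcpos : 0 < Real.cos φ := by
    rw [hwre'] at hwre
    exact (pos_iff_pos_of_mul_pos hwre).mp hρ
  have hD : 0 < ρ ^ 2 + 2 * ρ * Real.cos φ + 1 := by positivity
  -- the value of `|z|^2`
  have hnz : ‖z‖ ^ 2 = (ρ ^ 2 - 2 * ρ * Real.cos φ + 1) / (ρ ^ 2 + 2 * ρ * Real.cos φ + 1) := by
    rw [hzw, norm_div, div_pow]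
    congr 1
    · rw [← normSq_eq_norm_sq, normSq_apply]
      simp only [sub_re, one_re, sub_im, one_im, hwre', hwim']
      nlinarith [hcs]
    · rw [← normSq_eq_norm_sq, normSq_apply]
      simp only [add_re, one_re, add_im, one_im, hwre', hwim']
      nlinarith [hcs]
  -- the value of `w ^ β`
  have hpow : pBeta β z = ((ρ ^ β : ℝ) : ℂ) * (Real.cos (β * φ) + Real.sin (β * φ) * I) := by
    unfold pBeta
    rw [← hw, cpow_def_of_ne_zero hw0]
    have hlog : log w = (Real.log ρ : ℂ) + φ * I := by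
      rw [hρdef, hφdef]; rfl
    rw [hlog, add_mul, exp_add]
    congr 1
    · rw [Real.rpow_def_of_pos hρ]; push_cast; rfl
    · have : (φ : ℂ) * I * β = ((β * φ : ℝ) : ℂ) * I := by push_cast; ring
      rw [this, exp_mul_I]
      push_cast; rfl
  have hzz : z * (2 * β / (1 - z ^ 2)) = (β / 2 : ℂ) * (w - w⁻¹) := by
    have hne2 : (1 - z ^ 2) ≠ 0 := by
      have : (1 - z ^ 2) = (1 - z) * (1 + z) := by ring
      rw [this]; exact mul_ne_zero hne hne'
    have e1 : w - w⁻¹ = 4 * z / (1 - z ^ 2) := by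
      have e2 : (1 - z ^ 2) = (1 - z) * (1 + z) := by ring
      rw [hw, inv_div, e2]
      field_simp
      ring
    rw [e1]
    field_simp
    ring
  have hwinv : w - w⁻¹ = ((ρ - ρ⁻¹) * Real.cos φ : ℝ) + ((ρ + ρ⁻¹) * Real.sin φ : ℝ) * I := by
    have hwi : w⁻¹ = (ρ⁻¹ * Real.cos φ : ℝ) - (ρ⁻¹ * Real.sin φ : ℝ) * I := by
      apply inv_eq_of_mul_eq_one_right
      rw [hwpol]
      have hρ' : (ρ : ℂ) ≠ 0 := by exact_mod_cast hρ.ne'
      have hcs' : ((Real.cos φ : ℝ) : ℂ) ^ 2 + ((Real.sin φ : ℝ) : ℂ) ^ 2 = 1 := by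
        exact_mod_cast hcs
      push_cast
      push_cast at hcs'
      field_simp
      linear_combination hcs' - (Complex.sin φ) ^ 2 * I_sq
    rw [hwi]
    nth_rewrite 1 [hwpol]
    push_cast
    ring
  have hP : bigP α β z = ((ρ ^ β : ℝ) : ℂ) * (Real.cos (β * φ) + Real.sin (β * φ) * I) *
      (((α * ‖z‖ ^ 2 + (1 - α) * (1 - ‖z‖ ^ 2) : ℝ) : ℂ)
        + (((1 - α) * (1 - ‖z‖ ^ 2) : ℝ) : ℂ) * ((β / 2 : ℂ) * (w - w⁻¹))) := by
    unfold bigP
    rw [deriv_pBeta β hz, ← hzz, hpow]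
    ring
  have hre : (bigP α β z).re = ρ ^ β *
      (Real.cos (β * φ) * ((α * ‖z‖ ^ 2 + (1 - α) * (1 - ‖z‖ ^ 2))
          + (1 - α) * (1 - ‖z‖ ^ 2) * (β / 2 * ((ρ - ρ⁻¹) * Real.cos φ)))
        - Real.sin (β * φ) * ((1 - α) * (1 - ‖z‖ ^ 2) * (β / 2 * ((ρ + ρ⁻¹) * Real.sin φ)))) := by
    rw [hP, hwinv]
    have : ∀ a b x y k m n : ℝ, ((k : ℂ) * ((a : ℂ) + (b : ℂ) * I) *
        ((m : ℂ) + (n : ℂ) * ((β / 2 : ℂ) * ((x : ℂ) + (y : ℂ) * I)))).re
        = k * (a * (m + n * (β / 2 * x)) - b * (n * (β / 2 * y))) := by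
      intro a b x y k m n
      have : ((k : ℂ) * ((a : ℂ) + (b : ℂ) * I) *
        ((m : ℂ) + (n : ℂ) * ((β / 2 : ℂ) * ((x : ℂ) + (y : ℂ) * I))))
        = ((k * (a * (m + n * (β / 2 * x)) - b * (n * (β / 2 * y))) : ℝ) : ℂ)
          + ((k * (a * (n * (β / 2 * y)) + b * (m + n * (β / 2 * x))) : ℝ) : ℂ) * I := by
        push_cast
        linear_combination ((k : ℂ) * b * n * (β / 2) * y) * I_sq
      rw [this]; simp
    exact this _ _ _ _ _ _ _
  rw [hre]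
  apply mul_nonneg (Real.rpow_nonneg hρ.le β)
  have hcore := core_ineq hα hα' hβ h hρ hφ
  have h1r : 1 - ‖z‖ ^ 2 = 4 * ρ * Real.cos φ / (ρ ^ 2 + 2 * ρ * Real.cos φ + 1) := by
    rw [hnz]; field_simp; ring
  rw [h1r, hnz]
  have hfin : (Real.cos (β * φ) * ((α * ((ρ ^ 2 - 2 * ρ * Real.cos φ + 1) /
          (ρ ^ 2 + 2 * ρ * Real.cos φ + 1)) + (1 - α) * (4 * ρ * Real.cos φ /
          (ρ ^ 2 + 2 * ρ * Real.cos φ + 1)))
          + (1 - α) * (4 * ρ * Real.cos φ / (ρ ^ 2 + 2 * ρ * Real.cos φ + 1)) *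
            (β / 2 * ((ρ - ρ⁻¹) * Real.cos φ)))
        - Real.sin (β * φ) * ((1 - α) * (4 * ρ * Real.cos φ / (ρ ^ 2 + 2 * ρ * Real.cos φ + 1)) *
            (β / 2 * ((ρ + ρ⁻¹) * Real.sin φ))))
      = (Real.cos (β * φ) * (α * (ρ ^ 2 - 2 * ρ * Real.cos φ + 1)
            + 4 * (1 - α) * (ρ * Real.cos φ)
          + 2 * (1 - α) * β * (ρ ^ 2 - 1) * Real.cos φ ^ 2)
        - 2 * (1 - α) * β * Real.cos φ * Real.sin φ * Real.sin (β * φ) * (ρ ^ 2 + 1)) /
          (ρ ^ 2 + 2 * ρ * Real.cos φ + 1) := by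
    have hD' := hD.ne'
    field_simp
    ring
  rw [hfin]
  exact div_nonneg hcore hD.le

end Pool.Agent.Results.MP_54ed65_an.NonnegRealPart
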